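import Mathlib

namespace Pool.Agent.BallPart

/-- Sorted load vectors of solutions for `d = 4`, together with the rows
(numbers of balls of weight 7, 6, 4, 0 in each bin). -/
def sols : List ((ℕ × ℕ × ℕ × ℕ × ℕ) × (ℕ × ℕ × ℕ × ℕ) × (ℕ × ℕ × ℕ × ℕ) × (ℕ × ℕ × ℕ × ℕ) ×
    (ℕ × ℕ × ℕ × ℕ) × (ℕ × ℕ × ℕ × ℕ)) :=
  [((24,21,18,14,7),(2,1,1,0),(1,1,2,0),(0,1,3,0),(0,1,2,1),(1,0,0,3)),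
   ((24,20,16,13,11),(2,1,1,0),(0,2,2,0),(0,0,4,0),(1,1,0,2),(1,0,1,2)),
   ((24,22,19,15,4),(0,4,0,0),(2,0,2,0),(1,0,3,0),(1,0,2,1),(0,0,1,3)),
   ((24,22,19,11,8),(0,4,0,0),(2,0,2,0),(1,0,3,0),(1,0,1,2),(0,0,2,2)),
   ((23,19,17,15,10),(1,2,1,0),(1,0,3,0),(1,1,1,1),(1,0,2,1),(0,1,1,2)),
   ((25,22,15,12,10),(1,3,0,0),(2,0,2,0),(1,0,2,1),(0,0,3,1),(0,1,1,2)),
   ((22,20,19,17,6),(2,0,2,0),(0,2,2,0),(1,0,3,0),(1,1,1,1),(0,1,0,3)),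
   ((24,22,20,18,0),(2,1,1,0),(2,0,2,0),(0,2,2,0),(0,1,3,0),(0,0,0,4)),
   ((22,18,16,15,13),(0,3,1,0),(2,0,1,1),(0,0,4,0),(1,0,2,1),(1,1,0,2)),
   ((21,20,18,14,11),(1,1,2,0),(0,2,2,0),(0,1,3,0),(2,0,0,2),(1,0,1,2)),
   ((25,23,16,14,6),(3,0,1,0),(1,2,1,0),(0,0,4,0),(0,1,2,1),(0,1,0,3)),
   ((26,20,18,16,4),(2,2,0,0),(0,2,2,0),(2,0,1,1),(0,0,4,0),(0,0,1,3)),
   ((26,20,18,12,8),(2,2,0,0),(0,2,2,0),(2,0,1,1),(0,0,3,1),(0,0,2,2)),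
   ((25,18,15,14,12),(1,3,0,0),(0,1,3,0),(1,0,2,1),(2,0,0,2),(0,0,3,1)),
   ((22,21,19,12,10),(0,3,1,0),(3,0,0,1),(1,0,3,0),(0,0,3,1),(0,1,1,2)),
   ((25,18,17,16,8),(1,3,0,0),(2,0,1,1),(1,1,1,1),(0,0,4,0),(0,0,2,2)),
   ((23,22,21,12,6),(1,2,1,0),(2,0,2,0),(1,1,2,0),(0,0,3,1),(0,1,0,3)),
   ((23,22,16,15,8),(1,2,1,0),(2,0,2,0),(0,2,1,1),(1,0,2,1),(0,0,2,2)),
   ((20,19,17,16,12),(2,1,0,1),(1,0,3,0),(1,1,1,1),(0,0,4,0),(0,2,0,2)),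
   ((23,22,14,13,12),(1,2,1,0),(2,0,2,0),(0,1,2,1),(1,1,0,2),(0,0,3,1)),
   ((23,21,20,16,4),(1,2,1,0),(1,1,2,0),(2,1,0,1),(0,0,4,0),(0,0,1,3)),
   ((26,21,19,18,0),(2,2,0,0),(1,1,2,0),(1,0,3,0),(0,1,3,0),(0,0,0,4)),
   ((25,21,18,10,10),(3,0,1,0),(1,1,2,0),(0,1,3,0),(0,1,1,2),(0,1,1,2)),
   ((21,19,18,18,8),(1,1,2,0),(1,0,3,0),(0,3,0,1),(2,0,1,1),(0,0,2,2)),
   ((26,21,19,12,6),(2,2,0,0),(1,1,2,0),(1,0,3,0),(0,0,3,1),(0,1,0,3)),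
   ((26,21,15,14,8),(2,2,0,0),(1,1,2,0),(1,0,2,1),(0,1,2,1),(0,0,2,2)),
   ((24,23,17,16,4),(2,1,1,0),(1,2,1,0),(1,1,1,1),(0,0,4,0),(0,0,1,3)),
   ((24,23,17,12,8),(2,1,1,0),(1,2,1,0),(1,1,1,1),(0,0,3,1),(0,0,2,2)),
   ((26,17,16,14,11),(2,2,0,0),(1,1,1,1),(0,0,4,0),(0,1,2,1),(1,0,1,2)),
   ((23,21,21,19,0),(1,2,1,0),(1,1,2,0),(1,1,2,0),(1,0,3,0),(0,0,0,4)),
   ((22,20,20,14,8),(2,0,2,0),(0,2,2,0),(0,2,2,0),(2,0,0,2),(0,0,2,2)),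
   ((19,17,17,16,15),(1,0,3,0),(1,1,1,1),(1,1,1,1),(0,2,1,1),(1,0,2,1)),
   ((23,19,18,12,12),(1,2,1,0),(1,0,3,0),(2,0,1,1),(0,0,3,1),(0,2,0,2)),
   ((25,19,18,18,4),(1,3,0,0),(1,0,3,0),(0,1,3,0),(2,0,1,1),(0,0,1,3)),
   ((24,16,15,15,14),(0,4,0,0),(0,0,4,0),(1,0,2,1),(1,0,2,1),(2,0,0,2)),
   ((21,20,20,19,4),(1,1,2,0),(0,2,2,0),(2,1,0,1),(1,0,3,0),(0,0,1,3)),
   ((26,21,14,12,11),(2,2,0,0),(1,1,2,0),(0,1,2,1),(0,0,3,1),(1,0,1,2)),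
   ((24,21,21,10,8),(2,1,1,0),(1,1,2,0),(1,1,2,0),(0,1,1,2),(0,0,2,2)),
   ((21,20,15,14,14),(1,1,2,0),(0,2,2,0),(1,0,2,1),(0,1,2,1),(2,0,0,2)),
   ((26,19,16,13,10),(2,2,0,0),(1,0,3,0),(0,0,4,0),(1,1,0,2),(0,1,1,2)),
   ((25,19,19,14,7),(1,3,0,0),(1,0,3,0),(1,0,3,0),(0,1,2,1),(1,0,0,3)),
   ((25,24,19,16,0),(1,3,0,0),(2,1,1,0),(1,0,3,0),(0,0,4,0),(0,0,0,4)),
   ((25,21,20,14,4),(3,0,1,0),(1,1,2,0),(0,2,2,0),(0,1,2,1),(0,0,1,3)),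
   ((24,23,16,11,10),(2,1,1,0),(1,2,1,0),(0,0,4,0),(1,0,1,2),(0,1,1,2)),
   ((22,22,18,16,6),(0,3,1,0),(2,0,2,0),(2,0,1,1),(0,0,4,0),(0,1,0,3)),
   ((21,18,18,17,10),(1,1,2,0),(0,1,3,0),(2,0,1,1),(1,1,1,1),(0,1,1,2)),
   ((27,20,16,15,6),(3,1,0,0),(0,2,2,0),(0,0,4,0),(1,0,2,1),(0,1,0,3)),
   ((25,23,18,12,6),(3,0,1,0),(1,2,1,0),(0,1,3,0),(0,0,3,1),(0,1,0,3)),
   ((20,18,18,14,14),(0,2,2,0),(0,1,3,0),(0,1,3,0),(2,0,0,2),(2,0,0,2)),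
   ((25,23,18,10,8),(3,0,1,0),(1,2,1,0),(0,1,3,0),(0,1,1,2),(0,0,2,2)),
   ((24,24,14,14,8),(2,1,1,0),(2,1,1,0),(0,1,2,1),(0,1,2,1),(0,0,2,2)),
   ((22,22,22,18,0),(0,3,1,0),(2,0,2,0),(2,0,2,0),(0,1,3,0),(0,0,0,4)),
   ((22,21,16,14,11),(0,3,1,0),(1,1,2,0),(0,0,4,0),(2,0,0,2),(1,0,1,2)),
   ((21,21,20,15,7),(1,1,2,0),(1,1,2,0),(0,2,2,0),(1,0,2,1),(1,0,0,3)),
   ((19,19,19,17,10),(1,0,3,0),(1,0,3,0),(1,2,0,1),(1,1,1,1),(0,1,1,2)),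
   ((26,22,20,16,0),(2,2,0,0),(2,0,2,0),(0,2,2,0),(0,0,4,0),(0,0,0,4)),
   ((25,22,13,12,12),(1,3,0,0),(2,0,2,0),(1,1,0,2),(0,0,3,1),(0,0,3,1)),
   ((25,23,18,18,0),(3,0,1,0),(1,2,1,0),(0,1,3,0),(0,1,3,0),(0,0,0,4)),
   ((25,20,20,19,0),(3,0,1,0),(0,2,2,0),(0,2,2,0),(1,0,3,0),(0,0,0,4)),
   ((24,23,21,16,0),(2,1,1,0),(1,2,1,0),(1,1,2,0),(0,0,4,0),(0,0,0,4)),
   ((23,22,21,10,8),(1,2,1,0),(2,0,2,0),(1,1,2,0),(0,1,1,2),(0,0,2,2)),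
   ((25,19,19,11,10),(1,3,0,0),(1,0,3,0),(1,0,3,0),(1,0,1,2),(0,1,1,2)),
   ((25,23,18,14,4),(3,0,1,0),(1,2,1,0),(0,1,3,0),(0,1,2,1),(0,0,1,3)),
   ((24,20,17,16,7),(2,1,1,0),(0,2,2,0),(1,1,1,1),(0,0,4,0),(1,0,0,3)),
   ((24,19,14,14,13),(2,1,1,0),(1,0,3,0),(0,1,2,1),(0,1,2,1),(1,1,0,2)),
   ((24,17,17,16,10),(2,1,1,0),(1,1,1,1),(1,1,1,1),(0,0,4,0),(0,1,1,2)),
   ((27,18,18,15,6),(3,1,0,0),(0,1,3,0),(0,1,3,0),(1,0,2,1),(0,1,0,3)),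
   ((23,23,19,19,0),(1,2,1,0),(1,2,1,0),(1,0,3,0),(1,0,3,0),(0,0,0,4)),
   ((23,22,21,14,4),(1,2,1,0),(2,0,2,0),(1,1,2,0),(0,1,2,1),(0,0,1,3)),
   ((27,18,15,12,12),(3,1,0,0),(0,1,3,0),(1,0,2,1),(0,0,3,1),(0,2,0,2)),
   ((25,22,16,13,8),(1,3,0,0),(2,0,2,0),(0,0,4,0),(1,1,0,2),(0,0,2,2)),
   ((23,23,18,12,8),(1,2,1,0),(1,2,1,0),(2,0,1,1),(0,0,3,1),(0,0,2,2)),
   ((22,22,19,17,4),(0,3,1,0),(2,0,2,0),(1,0,3,0),(1,1,1,1),(0,0,1,3)),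
   ((21,21,20,11,11),(1,1,2,0),(1,1,2,0),(0,2,2,0),(1,0,1,2),(1,0,1,2)),
   ((18,18,16,16,16),(2,0,1,1),(2,0,1,1),(0,0,4,0),(0,2,1,1),(0,2,1,1)),
   ((27,23,18,16,0),(3,1,0,0),(1,2,1,0),(0,1,3,0),(0,0,4,0),(0,0,0,4)),
   ((27,21,20,16,0),(3,1,0,0),(1,1,2,0),(0,2,2,0),(0,0,4,0),(0,0,0,4)),
   ((25,22,21,16,0),(1,3,0,0),(2,0,2,0),(1,1,2,0),(0,0,4,0),(0,0,0,4)),
   ((25,21,20,10,8),(3,0,1,0),(1,1,2,0),(0,2,2,0),(0,1,1,2),(0,0,2,2)),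
   ((24,20,15,15,10),(2,1,1,0),(0,2,2,0),(1,0,2,1),(1,0,2,1),(0,1,1,2)),
   ((23,23,22,16,0),(1,2,1,0),(1,2,1,0),(2,0,2,0),(0,0,4,0),(0,0,0,4)),
   ((23,19,19,16,7),(1,2,1,0),(1,0,3,0),(1,0,3,0),(0,2,1,1),(1,0,0,3)),
   ((22,22,20,20,0),(2,0,2,0),(2,0,2,0),(0,2,2,0),(0,2,2,0),(0,0,0,4)),
   ((22,18,18,13,13),(2,0,2,0),(0,1,3,0),(0,1,3,0),(1,1,0,2),(1,1,0,2)),
   ((27,20,19,18,0),(3,1,0,0),(0,2,2,0),(1,0,3,0),(0,1,3,0),(0,0,0,4)),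
   ((26,22,16,16,4),(2,2,0,0),(2,0,2,0),(0,0,4,0),(0,2,1,1),(0,0,1,3)),
   ((25,23,14,12,10),(3,0,1,0),(1,2,1,0),(0,1,2,1),(0,0,3,1),(0,1,1,2)),
   ((24,24,20,12,4),(2,1,1,0),(2,1,1,0),(0,2,2,0),(0,0,3,1),(0,0,1,3)),
   ((23,17,16,15,13),(1,2,1,0),(1,1,1,1),(0,0,4,0),(1,0,2,1),(1,1,0,2)),
   ((22,21,17,16,8),(0,3,1,0),(3,0,0,1),(1,1,1,1),(0,0,4,0),(0,0,2,2)),
   ((20,20,19,18,7),(0,2,2,0),(0,2,2,0),(1,0,3,0),(2,0,1,1),(1,0,0,3)),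
   ((19,19,18,15,13),(1,0,3,0),(1,0,3,0),(0,3,0,1),(1,0,2,1),(1,1,0,2)),
   ((27,22,19,16,0),(3,1,0,0),(0,3,1,0),(1,0,3,0),(0,0,4,0),(0,0,0,4)),
   ((27,22,16,11,8),(3,1,0,0),(0,3,1,0),(0,0,4,0),(1,0,1,2),(0,0,2,2)),
   ((27,21,18,18,0),(3,1,0,0),(1,1,2,0),(0,1,3,0),(0,1,3,0),(0,0,0,4)),
   ((27,16,16,13,12),(3,1,0,0),(0,0,4,0),(0,0,4,0),(1,1,0,2),(0,2,0,2)),
   ((26,24,18,16,0),(2,2,0,0),(2,1,1,0),(0,1,3,0),(0,0,4,0),(0,0,0,4)),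
   ((26,23,19,16,0),(2,2,0,0),(1,2,1,0),(1,0,3,0),(0,0,4,0),(0,0,0,4)),
   ((26,21,21,16,0),(2,2,0,0),(1,1,2,0),(1,1,2,0),(0,0,4,0),(0,0,0,4)),
   ((25,25,18,16,0),(1,3,0,0),(3,0,1,0),(0,1,3,0),(0,0,4,0),(0,0,0,4)),
   ((25,22,19,18,0),(1,3,0,0),(2,0,2,0),(1,0,3,0),(0,1,3,0),(0,0,0,4)),
   ((25,23,20,16,0),(3,0,1,0),(1,2,1,0),(0,2,2,0),(0,0,4,0),(0,0,0,4)),
   ((25,21,20,18,0),(3,0,1,0),(1,1,2,0),(0,2,2,0),(0,1,3,0),(0,0,0,4)),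
   ((24,22,22,16,0),(0,4,0,0),(2,0,2,0),(2,0,2,0),(0,0,4,0),(0,0,0,4)),
   ((24,21,19,16,4),(0,4,0,0),(3,0,0,1),(1,0,3,0),(0,0,4,0),(0,0,1,3)),
   ((24,24,20,16,0),(2,1,1,0),(2,1,1,0),(0,2,2,0),(0,0,4,0),(0,0,0,4)),
   ((24,24,20,8,8),(2,1,1,0),(2,1,1,0),(0,2,2,0),(0,0,2,2),(0,0,2,2)),
   ((24,24,18,18,0),(2,1,1,0),(2,1,1,0),(0,1,3,0),(0,1,3,0),(0,0,0,4)),
   ((24,21,20,19,0),(2,1,1,0),(1,1,2,0),(0,2,2,0),(1,0,3,0),(0,0,0,4)),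
   ((23,22,21,18,0),(1,2,1,0),(2,0,2,0),(1,1,2,0),(0,1,3,0),(0,0,0,4)),
   ((22,22,22,12,6),(0,3,1,0),(2,0,2,0),(2,0,2,0),(0,0,3,1),(0,1,0,3)),
   ((22,21,21,20,0),(2,0,2,0),(1,1,2,0),(1,1,2,0),(0,2,2,0),(0,0,0,4))]

def rowOK (l : ℕ) (r : ℕ × ℕ × ℕ × ℕ) : Bool :=
  (7 * r.1 + 6 * r.2.1 + 4 * r.2.2.1 == l) && (r.1 + r.2.1 + r.2.2.1 + r.2.2.2 == 4)

def valid (e : (ℕ × ℕ × ℕ × ℕ × ℕ) × (ℕ × ℕ × ℕ × ℕ) × (ℕ × ℕ × ℕ × ℕ) × (ℕ × ℕ × ℕ × ℕ) ×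
    (ℕ × ℕ × ℕ × ℕ) × (ℕ × ℕ × ℕ × ℕ)) : Bool :=
  match e with
  | ((l0, l1, l2, l3, l4), r0, r1, r2, r3, r4) =>
    rowOK l0 r0 && rowOK l1 r1 && rowOK l2 r2 && rowOK l3 r3 && rowOK l4 r4 &&
    (r0.1 + r1.1 + r2.1 + r3.1 + r4.1 == 4) &&
    (r0.2.1 + r1.2.1 + r2.2.1 + r3.2.1 + r4.2.1 == 4) &&
    (r0.2.2.1 + r1.2.2.1 + r2.2.2.1 + r3.2.2.1 + r4.2.2.1 == 8) &&
    (r0.2.2.2 + r1.2.2.2 + r2.2.2.2 + r3.2.2.2 + r4.2.2.2 == 4)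

theorem valid_all : sols.all valid = true := by decide +kernel

def dom (c0 c1 c2 c3 c4 : ℕ) : Bool :=
  sols.any fun e => Nat.ble e.1.1 c0 && Nat.ble e.1.2.1 c1 && Nat.ble e.1.2.2.1 c2 &&
    Nat.ble e.1.2.2.2.1 c3 && Nat.ble e.1.2.2.2.2 c4

def check : Bool :=
  (List.range 18).all fun c4 => (List.range 23).all fun c3 =>
    (Nat.blt c3 c4 || Nat.blt (c3 + c4) 19) ||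
    (List.range 30).all fun c2 => (Nat.blt c2 c3 || Nat.blt (c2 + c3 + c4) 38) ||
      (List.range 45).all fun c1 => (Nat.blt c1 c2 || Nat.blt (c1 + c2 + c3 + c4) 61 ||
        Nat.blt (88 - (c1 + c2 + c3 + c4)) c1) ||
        dom (88 - (c1 + c2 + c3 + c4)) c1 c2 c3 c4

theorem check_true : check = true := by decide +kernel

end Pool.Agent.BallPart
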