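import Pool.Agent.BallPart.Data

namespace Pool.Agent.BallPart

/-- A solution for `d` copies of each of the weights `7, 6, 4, 4, 0`, in terms of the numbers
`x, y, z, t` of balls of weights `7, 6, 4, 0` in each bin. -/
def Fz (d : ℕ) (C : Fin 5 → ℤ) : Prop :=
  ∃ x y z t : Fin 5 → ℕ, (∀ i, x i + y i + z i + t i = d) ∧ ∑ i, x i = d ∧ ∑ i, y i = d ∧
    ∑ i, z i = 2 * d ∧ ∑ i, t i = d ∧ ∀ i, 7 * (x i : ℤ) + 6 * y i + 4 * z i ≤ C i

theorem Fz.mono {d : ℕ} {C C' : Fin 5 → ℤ} (h : Fz d C) (hC : ∀ i, C i ≤ C' i) : Fz d C' := by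
  obtain ⟨x, y, z, t, h1, h2, h3, h4, h5, h6⟩ := h
  exact ⟨x, y, z, t, h1, h2, h3, h4, h5, fun i => (h6 i).trans (hC i)⟩

theorem Fz.perm {d : ℕ} {C : Fin 5 → ℤ} (σ : Equiv.Perm (Fin 5)) (h : Fz d (C ∘ σ)) :
    Fz d C := by
  obtain ⟨x, y, z, t, h1, h2, h3, h4, h5, h6⟩ := h
  refine ⟨x ∘ σ.symm, y ∘ σ.symm, z ∘ σ.symm, t ∘ σ.symm, fun i => h1 _, ?_, ?_, ?_, ?_, ?_⟩
  · rw [← h2]; exact Equiv.sum_comp σ.symm x
  · rw [← h3]; exact Equiv.sum_comp σ.symm y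
  · rw [← h4]; exact Equiv.sum_comp σ.symm z
  · rw [← h5]; exact Equiv.sum_comp σ.symm t
  · intro i
    have := h6 (σ.symm i)
    simpa using this

/-- The lower bounds for the sums of `k` capacities. -/
def T (d : ℤ) : ℕ → ℤ
  | 0 => 0
  | 1 => 0
  | 2 => 4 * d + 3
  | 3 => 8 * d + 6
  | 4 => 14 * d + 5
  | 5 => 21 * d + 4
  | _ => 0

def Reg (d : ℤ) (C : Fin 5 → ℤ) : Prop := ∀ K : Finset (Fin 5), T d K.card ≤ ∑ i ∈ K, C i

theorem Reg.perm {d : ℤ} {C : Fin 5 → ℤ} (h : Reg d C) (σ : Equiv.Perm (Fin 5)) :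
    Reg d (C ∘ σ) := by
  intro K
  have := h (K.map σ.toEmbedding)
  rw [Finset.card_map, Finset.sum_map] at this
  exact this

theorem sum_mem (K : Finset (Fin 5)) (f : Fin 5 → ℤ) :
    ∑ i ∈ K, f i = (if 0 ∈ K then f 0 else 0) + (if 1 ∈ K then f 1 else 0) +
      (if 2 ∈ K then f 2 else 0) + (if 3 ∈ K then f 3 else 0) + (if 4 ∈ K then f 4 else 0) := by
  have : ∑ i ∈ K, f i = ∑ i, if i ∈ K then f i else 0 := by
    rw [Finset.sum_ite_mem, Finset.univ_inter]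
  rw [this, Fin.sum_univ_five]

theorem card_mem (K : Finset (Fin 5)) :
    K.card = (if 0 ∈ K then 1 else 0) + (if 1 ∈ K then 1 else 0) +
      (if 2 ∈ K then 1 else 0) + (if 3 ∈ K then 1 else 0) + (if 4 ∈ K then 1 else 0) := by
  have : K.card = ∑ i, if i ∈ K then 1 else 0 := by
    rw [Finset.sum_ite_mem, Finset.univ_inter, Finset.card_eq_sum_ones]
  rw [this, Fin.sum_univ_five]

/-- The tail inequalities together with monotonicity. -/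
structure Tail (d : ℤ) (C : Fin 5 → ℤ) : Prop where
  m01 : C 1 ≤ C 0
  m12 : C 2 ≤ C 1
  m23 : C 3 ≤ C 2
  m34 : C 4 ≤ C 3
  s5 : 0 ≤ C 4
  s4 : 4 * d + 3 ≤ C 3 + C 4
  s3 : 8 * d + 6 ≤ C 2 + C 3 + C 4
  s2 : 14 * d + 5 ≤ C 1 + C 2 + C 3 + C 4
  s1 : 21 * d + 4 ≤ C 0 + C 1 + C 2 + C 3 + C 4

theorem Reg.tail {d : ℤ} {C : Fin 5 → ℤ} (h : Reg d C) (hm : Antitone C) : Tail d C := by
  have a5 := h {4}
  have a4 := h {3, 4}
  have a3 := h {2, 3, 4}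
  have a2 := h {1, 2, 3, 4}
  have a1 := h {0, 1, 2, 3, 4}
  rw [show ({4} : Finset (Fin 5)).card = 1 from rfl, sum_mem] at a5
  rw [show ({3, 4} : Finset (Fin 5)).card = 2 from rfl, sum_mem] at a4
  rw [show ({2, 3, 4} : Finset (Fin 5)).card = 3 from rfl, sum_mem] at a3
  rw [show ({1, 2, 3, 4} : Finset (Fin 5)).card = 4 from rfl, sum_mem] at a2
  rw [show ({0, 1, 2, 3, 4} : Finset (Fin 5)).card = 5 from rfl, sum_mem] at a1
  simp [T] at a5 a4 a3 a2 a1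
  constructor
  · exact hm (by decide)
  · exact hm (by decide)
  · exact hm (by decide)
  · exact hm (by decide)
  · exact a5
  · exact a4
  · exact a3
  · exact a2
  · exact a1

theorem reg_of_tail {d : ℤ} (hd : 0 ≤ d) {C : Fin 5 → ℤ} (h : Tail d C) : Reg d C := by
  obtain ⟨m01, m12, m23, m34, s5, s4, s3, s2, s1⟩ := h
  intro K
  rw [card_mem, sum_mem]
  by_cases h0 : (0 : Fin 5) ∈ K <;> by_cases h1 : (1 : Fin 5) ∈ K <;>
  by_cases h2 : (2 : Fin 5) ∈ K <;> by_cases h3 : (3 : Fin 5) ∈ K <;>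
  by_cases h4 : (4 : Fin 5) ∈ K <;>
  simp only [h0, h1, h2, h3, h4, if_true, if_false, T, Nat.reduceAdd, add_zero, zero_add] <;>
  omega

/-- Subtracting the weights in sorted order. -/
theorem reg_step {d : ℤ} (hd : 4 ≤ d) {C : Fin 5 → ℤ} (h : Tail (d + 1) C) :
    Reg d (fun i => C i - (![7, 6, 4, 4, 0] : Fin 5 → ℤ) i) := by
  obtain ⟨m01, m12, m23, m34, s5, s4, s3, s2, s1⟩ := h
  intro K
  rw [card_mem, sum_mem]
  have e0 : (![7, 6, 4, 4, 0] : Fin 5 → ℤ) 0 = 7 := rfl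
  have e1 : (![7, 6, 4, 4, 0] : Fin 5 → ℤ) 1 = 6 := rfl
  have e2 : (![7, 6, 4, 4, 0] : Fin 5 → ℤ) 2 = 4 := rfl
  have e3 : (![7, 6, 4, 4, 0] : Fin 5 → ℤ) 3 = 4 := rfl
  have e4 : (![7, 6, 4, 4, 0] : Fin 5 → ℤ) 4 = 0 := rfl
  rw [e0, e1, e2, e3, e4]
  generalize C 0 = a0 at *
  generalize C 1 = a1 at *
  generalize C 2 = a2 at *
  generalize C 3 = a3 at *
  generalize C 4 = a4 at *
  clear e0 e1 e2 e3 e4
  by_cases h0 : (0 : Fin 5) ∈ K <;> by_cases h1 : (1 : Fin 5) ∈ K <;>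
  by_cases h2 : (2 : Fin 5) ∈ K <;> by_cases h3 : (3 : Fin 5) ∈ K <;>
  by_cases h4 : (4 : Fin 5) ∈ K <;>
  simp only [h0, h1, h2, h3, h4, if_true, if_false, T, Nat.reduceAdd, add_zero, zero_add] <;>
  linarith

/-- Lowering the largest capacity when the total is not tight, `d = 4`. -/
theorem reg_lower {C : Fin 5 → ℤ} (h : Tail 4 C) (hs : 88 < C 0 + C 1 + C 2 + C 3 + C 4) :
    Reg 4 (fun i => C i - (![1, 0, 0, 0, 0] : Fin 5 → ℤ) i) := by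
  obtain ⟨m01, m12, m23, m34, s5, s4, s3, s2, s1⟩ := h
  intro K
  rw [card_mem, sum_mem]
  have e0 : (![1, 0, 0, 0, 0] : Fin 5 → ℤ) 0 = 1 := rfl
  have e1 : (![1, 0, 0, 0, 0] : Fin 5 → ℤ) 1 = 0 := rfl
  have e2 : (![1, 0, 0, 0, 0] : Fin 5 → ℤ) 2 = 0 := rfl
  have e3 : (![1, 0, 0, 0, 0] : Fin 5 → ℤ) 3 = 0 := rfl
  have e4 : (![1, 0, 0, 0, 0] : Fin 5 → ℤ) 4 = 0 := rfl
  rw [e0, e1, e2, e3, e4]
  generalize C 0 = a0 at *
  generalize C 1 = a1 at *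
  generalize C 2 = a2 at *
  generalize C 3 = a3 at *
  generalize C 4 = a4 at *
  clear e0 e1 e2 e3 e4
  by_cases h0 : (0 : Fin 5) ∈ K <;> by_cases h1 : (1 : Fin 5) ∈ K <;>
  by_cases h2 : (2 : Fin 5) ∈ K <;> by_cases h3 : (3 : Fin 5) ∈ K <;>
  by_cases h4 : (4 : Fin 5) ∈ K <;>
  simp only [h0, h1, h2, h3, h4, if_true, if_false, T, Nat.reduceAdd, add_zero, zero_add] <;>
  omega

theorem rowOK_iff {l : ℕ} {r : ℕ × ℕ × ℕ × ℕ} (h : rowOK l r = true) :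
    7 * r.1 + 6 * r.2.1 + 4 * r.2.2.1 = l ∧ r.1 + r.2.1 + r.2.2.1 + r.2.2.2 = 4 := by
  unfold rowOK at h
  rw [Bool.and_eq_true, beq_iff_eq, beq_iff_eq] at h
  exact h

theorem fz_of_valid {l0 l1 l2 l3 l4 : ℕ} {r0 r1 r2 r3 r4 : ℕ × ℕ × ℕ × ℕ}
    (h : valid ((l0, l1, l2, l3, l4), r0, r1, r2, r3, r4) = true) {C : Fin 5 → ℤ}
    (h0 : (l0 : ℤ) ≤ C 0) (h1 : (l1 : ℤ) ≤ C 1) (h2 : (l2 : ℤ) ≤ C 2) (h3 : (l3 : ℤ) ≤ C 3)
    (h4 : (l4 : ℤ) ≤ C 4) : Fz 4 C := by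
  simp only [valid, Bool.and_eq_true, beq_iff_eq] at h
  obtain ⟨⟨⟨⟨⟨⟨⟨⟨q0, q1⟩, q2⟩, q3⟩, q4⟩, s1⟩, s2⟩, s3⟩, s4⟩ := h
  have q0 := rowOK_iff q0
  have q1 := rowOK_iff q1
  have q2 := rowOK_iff q2
  have q3 := rowOK_iff q3
  have q4 := rowOK_iff q4
  refine ⟨![r0.1, r1.1, r2.1, r3.1, r4.1], ![r0.2.1, r1.2.1, r2.2.1, r3.2.1, r4.2.1],
    ![r0.2.2.1, r1.2.2.1, r2.2.2.1, r3.2.2.1, r4.2.2.1],
    ![r0.2.2.2, r1.2.2.2, r2.2.2.2, r3.2.2.2, r4.2.2.2], ?_, ?_, ?_, ?_, ?_, ?_⟩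
  · intro i
    fin_cases i
    · exact q0.2
    · exact q1.2
    · exact q2.2
    · exact q3.2
    · exact q4.2
  · rw [Fin.sum_univ_five]; exact s1
  · rw [Fin.sum_univ_five]; exact s2
  · rw [Fin.sum_univ_five]; exact s3
  · rw [Fin.sum_univ_five]; exact s4
  · intro i
    fin_cases i
    · refine le_trans (le_of_eq ?_) h0
      rw [← q0.1]; push_cast; rfl
    · refine le_trans (le_of_eq ?_) h1
      rw [← q1.1]; push_cast; rfl
    · refine le_trans (le_of_eq ?_) h2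
      rw [← q2.1]; push_cast; rfl
    · refine le_trans (le_of_eq ?_) h3
      rw [← q3.1]; push_cast; rfl
    · refine le_trans (le_of_eq ?_) h4
      rw [← q4.1]; push_cast; rfl

theorem fz_of_dom {c0 c1 c2 c3 c4 : ℕ} (h : dom c0 c1 c2 c3 c4 = true) {C : Fin 5 → ℤ}
    (h0 : (c0 : ℤ) = C 0) (h1 : (c1 : ℤ) = C 1) (h2 : (c2 : ℤ) = C 2) (h3 : (c3 : ℤ) = C 3)
    (h4 : (c4 : ℤ) = C 4) : Fz 4 C := by
  unfold dom at h
  rw [List.any_eq_true] at h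
  obtain ⟨⟨⟨l0, l1, l2, l3, l4⟩, r0, r1, r2, r3, r4⟩, hmem, h⟩ := h
  have hv := List.all_eq_true.mp valid_all _ hmem
  simp only [Bool.and_eq_true, Nat.ble_eq] at h
  obtain ⟨⟨⟨⟨a0, a1⟩, a2⟩, a3⟩, a4⟩ := h
  exact fz_of_valid hv (by omega) (by omega) (by omega) (by omega) (by omega)

theorem base0 {C : Fin 5 → ℤ} (h : Tail 4 C) (hs : C 0 + C 1 + C 2 + C 3 + C 4 = 88) :
    Fz 4 C := by
  obtain ⟨m01, m12, m23, m34, s5, s4, s3, s2, s1⟩ := h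
  obtain ⟨c0, h0⟩ : ∃ c0 : ℕ, (c0 : ℤ) = C 0 := ⟨(C 0).toNat, by omega⟩
  obtain ⟨c1, h1⟩ : ∃ c0 : ℕ, (c0 : ℤ) = C 1 := ⟨(C 1).toNat, by omega⟩
  obtain ⟨c2, h2⟩ : ∃ c0 : ℕ, (c0 : ℤ) = C 2 := ⟨(C 2).toNat, by omega⟩
  obtain ⟨c3, h3⟩ : ∃ c0 : ℕ, (c0 : ℤ) = C 3 := ⟨(C 3).toNat, by omega⟩
  obtain ⟨c4, h4⟩ : ∃ c0 : ℕ, (c0 : ℤ) = C 4 := ⟨(C 4).toNat, by omega⟩
  have hc0 : c0 = 88 - (c1 + c2 + c3 + c4) := by omega
  have hck := check_true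
  unfold check at hck
  rw [List.all_eq_true] at hck
  have k1 := hck c4 (List.mem_range.mpr (by omega))
  rw [List.all_eq_true] at k1
  have k2 := k1 c3 (List.mem_range.mpr (by omega))
  rw [Bool.or_eq_true, Bool.or_eq_true, Nat.blt_eq, Nat.blt_eq] at k2
  have k3 := k2.resolve_left (by omega)
  rw [List.all_eq_true] at k3
  have k4 := k3 c2 (List.mem_range.mpr (by omega))
  rw [Bool.or_eq_true, Bool.or_eq_true, Nat.blt_eq, Nat.blt_eq] at k4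
  have k5 := k4.resolve_left (by omega)
  rw [List.all_eq_true] at k5
  have k6 := k5 c1 (List.mem_range.mpr (by omega))
  rw [Bool.or_eq_true, Bool.or_eq_true, Bool.or_eq_true, Nat.blt_eq, Nat.blt_eq, Nat.blt_eq] at k6
  have k7 := k6.resolve_left (by omega)
  rw [← hc0] at k7
  exact fz_of_dom k7 h0 h1 h2 h3 h4

theorem exists_sort (C : Fin 5 → ℤ) : ∃ σ : Equiv.Perm (Fin 5), Antitone (C ∘ σ) := by
  refine ⟨Tuple.sort (fun i => - C i), ?_⟩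
  have := Tuple.monotone_sort (fun i => - C i)
  intro a b hab
  have := this hab
  simp only [Function.comp] at this ⊢
  omega

theorem base1 (m : ℕ) : ∀ C : Fin 5 → ℤ, Reg 4 C → C 0 + C 1 + C 2 + C 3 + C 4 = 88 + m →
    Fz 4 C := by
  induction m with
  | zero =>
    intro C hC hs
    obtain ⟨σ, hσ⟩ := exists_sort C
    apply Fz.perm σ
    apply base0 ((hC.perm σ).tail hσ)
    have := Equiv.sum_comp σ C
    rw [Fin.sum_univ_five, Fin.sum_univ_five] at this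
    simp only [Function.comp]
    push_cast at hs
    omega
  | succ m ih =>
    intro C hC hs
    obtain ⟨σ, hσ⟩ := exists_sort C
    apply Fz.perm σ
    have e := Equiv.sum_comp σ C
    rw [Fin.sum_univ_five, Fin.sum_univ_five] at e
    have ht := (hC.perm σ).tail hσ
    have hsum : (C ∘ σ) 0 + (C ∘ σ) 1 + (C ∘ σ) 2 + (C ∘ σ) 3 + (C ∘ σ) 4 = 88 + ((m : ℤ) + 1) := by
      simp only [Function.comp]
      push_cast at hs
      omega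
    have := ih _ (reg_lower ht (by omega)) (by
      have e0 : (![1, 0, 0, 0, 0] : Fin 5 → ℤ) 0 = 1 := rfl
      have e1 : (![1, 0, 0, 0, 0] : Fin 5 → ℤ) 1 = 0 := rfl
      have e2 : (![1, 0, 0, 0, 0] : Fin 5 → ℤ) 2 = 0 := rfl
      have e3 : (![1, 0, 0, 0, 0] : Fin 5 → ℤ) 3 = 0 := rfl
      have e4 : (![1, 0, 0, 0, 0] : Fin 5 → ℤ) 4 = 0 := rfl
      simp only [e0, e1, e2, e3, e4]
      omega)
    apply this.mono
    intro i
    fin_cases i <;> simp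

theorem base (C : Fin 5 → ℤ) (hC : Reg 4 C) : Fz 4 C := by
  have h := hC {0, 1, 2, 3, 4}
  rw [show ({0, 1, 2, 3, 4} : Finset (Fin 5)).card = 5 from rfl, sum_mem] at h
  simp [T] at h
  exact base1 (C 0 + C 1 + C 2 + C 3 + C 4 - 88).toNat C hC (by omega)

theorem fz_step {d : ℕ} {C : Fin 5 → ℤ}
    (h : Fz d (fun i => C i - (![7, 6, 4, 4, 0] : Fin 5 → ℤ) i)) : Fz (d + 1) C := by
  obtain ⟨x, y, z, t, h1, h2, h3, h4, h5, h6⟩ := h
  rw [Fin.sum_univ_five] at h2 h3 h4 h5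
  refine ⟨x + ![1, 0, 0, 0, 0], y + ![0, 1, 0, 0, 0], z + ![0, 0, 1, 1, 0],
    t + ![0, 0, 0, 0, 1], ?_, ?_, ?_, ?_, ?_, ?_⟩
  · intro i
    have := h1 i
    fin_cases i <;> simp at this ⊢ <;> omega
  · rw [Fin.sum_univ_five]; simp; omega
  · rw [Fin.sum_univ_five]; simp; omega
  · rw [Fin.sum_univ_five]; simp; omega
  · rw [Fin.sum_univ_five]; simp; omega
  · intro i
    have := h6 i
    fin_cases i <;> simp at this ⊢ <;> omega

theorem all_fz (n : ℕ) : ∀ C : Fin 5 → ℤ, Reg ((n + 4 : ℕ) : ℤ) C → Fz (n + 4) C := by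
  induction n with
  | zero => intro C hC; exact base C hC
  | succ n ih =>
    intro C hC
    obtain ⟨σ, hσ⟩ := exists_sort C
    apply Fz.perm σ
    have ht := (hC.perm σ).tail hσ
    rw [show n + 1 + 4 = (n + 4) + 1 by ring]
    apply fz_step
    apply ih
    apply reg_step (by push_cast; omega)
    have : (((n + 1 + 4 : ℕ) : ℤ)) = ((n + 4 : ℕ) : ℤ) + 1 := by push_cast; ring
    rw [this] at ht
    exact ht

end Pool.Agent.BallPart
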